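import Pool.Agent.H809Z.Ball.Defs
import Pool.Agent.Helper853.Bk.Scv

open scoped Topology ENNReal InnerProductSpace
open Filter Metric Set MeasureTheory

namespace Pool.Agent.H809Z.Ball

namespace ReproAux

variable {n : ℕ}

lemma dz_holo {g : En n → ℂ} {z : En n} {L : En n →L[ℂ] ℂ} (hg : HasFDerivAt g L z) (v : En n) :
    dz g z v = L v := by
  have h := (hg.restrictScalars ℝ).fderiv
  unfold dz
  rw [h]
  simp only [ContinuousLinearMap.coe_restrictScalars', map_smul, smul_eq_mul]
  have := Complex.I_mul_I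
  linear_combination (-(L v) / 2) * this

lemma dz_rho (r : ℝ) (z v : En n) :
    dz (fun y : En n => ((‖y‖ ^ 2 - r ^ 2 : ℝ) : ℂ)) z v = ⟪z, v⟫_ℂ := by
  have e : (fun y : En n => ((‖y‖ ^ 2 - r ^ 2 : ℝ) : ℂ)) =
      fun y : En n => ⟪y, y⟫_ℂ - (r : ℂ) ^ 2 := by
    funext y
    rw [inner_self_eq_norm_sq_to_K]
    push_cast
    rfl
  have h := ((HasFDerivAt.inner ℂ (hasFDerivAt_id (𝕜 := ℝ) z) (hasFDerivAt_id (𝕜 := ℝ) z)).sub_const
    ((r : ℂ) ^ 2)).fderiv
  unfold dz
  rw [e]
  simp only [id] at h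
  rw [h]
  simp only [ContinuousLinearMap.comp_apply, ContinuousLinearMap.prod_apply,
    ContinuousLinearMap.id_apply, fderivInnerCLM_apply, inner_smul_left, inner_smul_right,
    Complex.conj_I]
  have := Complex.I_mul_I
  linear_combination ((⟪v, z⟫_ℂ - ⟪z, v⟫_ℂ) / 2) * this

lemma set_eq {r : ℝ} (hr : 0 < r) : {z : En n | ‖z‖ ^ 2 - r ^ 2 < 0} = ball 0 r := by
  ext z
  simp only [mem_ofPred_eq, mem_ball_zero_iff, sub_neg]
  exact sq_lt_sq₀ (norm_nonneg _) hr.le

lemma ibp_ball (hI : IBP n) {r : ℝ} (hr : 0 < r) {g h : En n → ℂ} (v : En n)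
    (hg : ∀ z ∈ closedBall (0 : En n) r, ContDiffAt ℝ 1 g z)
    (hh : DifferentiableOn ℂ h (ball 0 r)) (hi : IntegrableOn h (ball 0 r)) :
    ∫ z in ball (0 : En n) r, (⟪z, v⟫_ℂ * g z + ((‖z‖ ^ 2 - r ^ 2 : ℝ) : ℂ) * dz g z v) *
      (starRingEnd ℂ) (h z) = 0 := by
  have key := hI (fun y => ‖y‖ ^ 2 - r ^ 2) g h v
    ((contDiff_norm_sq ℂ).sub contDiff_const)
  simp only [set_eq hr, dz_rho] at key
  rw [closure_ball _ hr.ne'] at key
  exact key isBounded_ball hg hh hi

/-- the holomorphic kernel -/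
noncomputable def hk (b w : En n) : ℂ := ((1 - ⟪b, w⟫_ℂ) ^ (n + 1))⁻¹

lemma conj_hk (b w : En n) : (starRingEnd ℂ) (hk b w) = ker b w := by
  unfold hk ker
  rw [map_inv₀, map_pow, map_sub, map_one, inner_conj_symm]

lemma one_sub_ne {b w : En n} (hb : ‖b‖ < 1) (hw : ‖w‖ ≤ 1) : 1 - ⟪b, w⟫_ℂ ≠ 0 := by
  intro h
  have h1 : ⟪b, w⟫_ℂ = 1 := by linear_combination -h
  have h2 := norm_inner_le_norm (𝕜 := ℂ) b w
  rw [h1, norm_one] at h2
  have : ‖b‖ * ‖w‖ ≤ ‖b‖ := mul_le_of_le_one_right (norm_nonneg _) hw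
  linarith

lemma hasFDerivAt_hk {b w : En n} (h : 1 - ⟪b, w⟫_ℂ ≠ 0) :
    HasFDerivAt (hk b) ((((n : ℂ) + 1) * hk b w / (1 - ⟪b, w⟫_ℂ)) • innerSL ℂ b) w := by
  have h1 : HasFDerivAt (fun y : En n => ⟪b, y⟫_ℂ) (innerSL ℂ b) w := (innerSL ℂ b).hasFDerivAt
  have h2 : HasDerivAt (fun u : ℂ => ((1 - u) ^ (n + 1))⁻¹)
      (((n : ℂ) + 1) * hk b w / (1 - ⟪b, w⟫_ℂ)) ⟪b, w⟫_ℂ := by
    have h3 := (((hasDerivAt_id ⟪b, w⟫_ℂ).const_sub 1).pow (n + 1)).inv (pow_ne_zero _ h)
    refine HasDerivAt.congr_deriv h3 ?_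
    unfold hk
    simp only [id, Nat.add_sub_cancel, Pi.pow_apply]
    push_cast
    field_simp
    ring
  exact h2.comp_hasFDerivAt w h1

lemma contDiffAt_hk {b w : En n} (h : 1 - ⟪b, w⟫_ℂ ≠ 0) : ContDiffAt ℝ 1 (hk b) w := by
  have h1 : ContDiffAt ℝ 1 (fun y : En n => ⟪b, y⟫_ℂ) w :=
    ((innerSL ℂ b).restrictScalars ℝ).contDiff.contDiffAt
  exact ((contDiffAt_const.sub h1).pow (n + 1)).inv (pow_ne_zero _ h)

lemma continuousOn_hk {b : En n} (hb : ‖b‖ < 1) : ContinuousOn (hk b) (closedBall 0 1) :=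
  fun _ hw => (contDiffAt_hk (one_sub_ne hb (mem_closedBall_zero_iff.mp hw))).continuousAt
    |>.continuousWithinAt

lemma inner_eq_sum (x y : En n) : ⟪x, y⟫_ℂ = ∑ j, (starRingEnd ℂ) (x j) * y j := by
  rw [PiLp.inner_apply]
  refine Finset.sum_congr rfl fun j _ => ?_
  simp [mul_comm]

/-- the basic orthogonality relation -/
lemma core (hI : IBP n) {r : ℝ} (hr : 0 < r) (hr1 : r < 1) {b : En n} (hb : ‖b‖ < 1)
    {h : En n → ℂ} (hh : DifferentiableOn ℂ h (ball 0 r)) (hi : IntegrableOn h (ball 0 r))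
    (v : En n) :
    ∫ w in ball (0 : En n) r, (⟪w, v⟫_ℂ - (r : ℂ) ^ 2 * ⟪b, v⟫_ℂ) * hk b w *
      (starRingEnd ℂ) (h w) = 0 := by
  have hne : ∀ w ∈ closedBall (0 : En n) r, 1 - ⟪b, w⟫_ℂ ≠ 0 := fun w hw =>
    one_sub_ne hb ((mem_closedBall_zero_iff.mp hw).trans hr1.le)
  set e : Fin n → En n := fun j => EuclideanSpace.single j 1 with he
  set G : Fin n → En n → ℂ := fun j w => (v j - ⟪b, v⟫_ℂ * w j) * hk b w with hG
  set D : Fin n → En n → ℂ := fun j w => -⟪b, v⟫_ℂ * hk b w + (v j - ⟪b, v⟫_ℂ * w j) *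
    (((n : ℂ) + 1) * hk b w / (1 - ⟪b, w⟫_ℂ) * (starRingEnd ℂ) (b j)) with hD
  have hproj : ∀ (j : Fin n) (w : En n),
      HasFDerivAt (fun y : En n => y j) (EuclideanSpace.proj (𝕜 := ℂ) j) w :=
    fun j w => (EuclideanSpace.proj (𝕜 := ℂ) j).hasFDerivAt
  have hdz : ∀ j, ∀ w ∈ closedBall (0 : En n) r, dz (G j) w (e j) = D j w := by
    intro j w hw
    have h1 := (((hproj j w).const_mul ⟪b, v⟫_ℂ).const_sub (v j)).mul (hasFDerivAt_hk (hne w hw))
    have h2 := dz_holo h1 (e j)
    refine h2.trans ?_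
    simp [he, hD, EuclideanSpace.inner_single_right]
    ring
  have hcd : ∀ j, ∀ w ∈ closedBall (0 : En n) r, ContDiffAt ℝ 1 (G j) w := by
    intro j w hw
    have h1 : ContDiffAt ℝ 1 (fun y : En n => y j) w :=
      ((EuclideanSpace.proj (𝕜 := ℂ) j).restrictScalars ℝ).contDiff.contDiffAt
    exact (contDiffAt_const.sub (contDiffAt_const.mul h1)).mul (contDiffAt_hk (hne w hw))
  have hck : ContinuousOn (hk b) (closedBall (0 : En n) r) :=
    (continuousOn_hk hb).mono (closedBall_subset_closedBall hr1.le)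
  have hconj : IntegrableOn (fun w => (starRingEnd ℂ) (h w)) (ball (0 : En n) r) :=
    (Complex.conjCLE : ℂ →L[ℝ] ℂ).integrable_comp hi
  have hint : ∀ j, IntegrableOn (fun w => (⟪w, e j⟫_ℂ * G j w +
      ((‖w‖ ^ 2 - r ^ 2 : ℝ) : ℂ) * D j w) * (starRingEnd ℂ) (h w)) (ball (0 : En n) r) := by
    intro j
    refine IntegrableOn.continuousOn_mul_of_subset ?_ hconj (isCompact_closedBall (0 : En n) r)
      measurableSet_ball ball_subset_closedBall
    have c1 : Continuous fun w : En n => w j := (EuclideanSpace.proj (𝕜 := ℂ) j).continuous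
    have c2 : Continuous fun w : En n => ⟪b, w⟫_ℂ := continuous_const.inner continuous_id
    have c3 : Continuous fun w : En n => ⟪w, e j⟫_ℂ := continuous_id.inner continuous_const
    have c4 : Continuous fun w : En n => ((‖w‖ ^ 2 - r ^ 2 : ℝ) : ℂ) := by fun_prop
    have c5 : Continuous fun w : En n => v j - ⟪b, v⟫_ℂ * w j :=
      continuous_const.sub (continuous_const.mul c1)
    refine (c3.continuousOn.mul (c5.continuousOn.mul hck)).add (c4.continuousOn.mul ?_)
    refine (continuousOn_const.mul hck).add (c5.continuousOn.mul ?_)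
    exact ((continuousOn_const.mul hck).div (continuous_const.sub c2).continuousOn hne).mul
      continuousOn_const
  have hz : ∀ j, ∫ w in ball (0 : En n) r, (⟪w, e j⟫_ℂ * G j w +
      ((‖w‖ ^ 2 - r ^ 2 : ℝ) : ℂ) * D j w) * (starRingEnd ℂ) (h w) = 0 := by
    intro j
    rw [← ibp_ball hI hr (e j) (hcd j) hh hi]
    refine setIntegral_congr_fun measurableSet_ball fun w hw => ?_
    simp only [hdz j w (ball_subset_closedBall hw)]
  have hs := integral_finsetSum (μ := volume.restrict (ball (0 : En n) r)) Finset.univ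
    (fun j _ => hint j)
  rw [Finset.sum_eq_zero fun j _ => hz j] at hs
  rw [← hs]
  refine setIntegral_congr_fun measurableSet_ball fun w hw => ?_
  have hw' := hne w (ball_subset_closedBall hw)
  rw [← Finset.sum_mul]
  congr 1
  have e1 : ∀ j, ⟪w, e j⟫_ℂ = (starRingEnd ℂ) (w j) := by
    intro j
    simp [he, EuclideanSpace.inner_single_right]
  have e2 : ((‖w‖ ^ 2 - r ^ 2 : ℝ) : ℂ) = ⟪w, w⟫_ℂ - (r : ℂ) ^ 2 := by
    rw [inner_self_eq_norm_sq_to_K]
    push_cast
    rfl
  have e3 : ∀ j, ⟪w, e j⟫_ℂ * G j w + ((‖w‖ ^ 2 - r ^ 2 : ℝ) : ℂ) * D j w =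
      hk b w * ((starRingEnd ℂ) (w j) * v j) - hk b w * ⟪b, v⟫_ℂ * ((starRingEnd ℂ) (w j) * w j)
      - (⟪w, w⟫_ℂ - (r : ℂ) ^ 2) * ⟪b, v⟫_ℂ * hk b w
      + (⟪w, w⟫_ℂ - (r : ℂ) ^ 2) * (((n : ℂ) + 1) * hk b w / (1 - ⟪b, w⟫_ℂ)) *
        ((starRingEnd ℂ) (b j) * v j)
      - (⟪w, w⟫_ℂ - (r : ℂ) ^ 2) * (((n : ℂ) + 1) * hk b w / (1 - ⟪b, w⟫_ℂ)) * ⟪b, v⟫_ℂ *
        ((starRingEnd ℂ) (b j) * w j) := by
    intro j
    rw [e1, e2]
    simp only [hG, hD]
    ring
  simp only [e3, Finset.sum_sub_distrib, Finset.sum_add_distrib, ← Finset.mul_sum,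
    ← inner_eq_sum, Finset.sum_const, Finset.card_univ, Fintype.card_fin, nsmul_eq_mul]
  field_simp
  ring

/-- conjugated and summed form -/
lemma core_sum (hI : IBP n) {r : ℝ} (hr : 0 < r) (hr1 : r < 1) {b : En n} (hb : ‖b‖ < 1)
    {L : En n → En n →L[ℂ] ℂ} (hL : ∀ v, DifferentiableOn ℂ (fun w => L w v) (ball 0 r))
    (hc : ∀ v, ContinuousOn (fun w => L w v) (closedBall 0 r)) :
    ∫ w in ball (0 : En n) r, L w (w - ((r : ℂ) ^ 2) • b) * ker b w = 0 := by
  set e : Fin n → En n := fun j => EuclideanSpace.single j 1 with he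
  have hck : ContinuousOn (hk b) (closedBall (0 : En n) r) :=
    (continuousOn_hk hb).mono (closedBall_subset_closedBall hr1.le)
  have hi : ∀ v, IntegrableOn (fun w => L w v) (ball (0 : En n) r) := fun v =>
    ((hc v).integrableOn_compact (isCompact_closedBall _ _)).mono_set ball_subset_closedBall
  have hint : ∀ j, IntegrableOn (fun w => (⟪w, e j⟫_ℂ - (r : ℂ) ^ 2 * ⟪b, e j⟫_ℂ) * hk b w *
      (starRingEnd ℂ) (L w (e j))) (ball (0 : En n) r) := by
    intro j
    refine (ContinuousOn.integrableOn_compact (isCompact_closedBall (0 : En n) r) ?_).mono_set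
      ball_subset_closedBall
    have c3 : Continuous fun w : En n => ⟪w, e j⟫_ℂ := continuous_id.inner continuous_const
    exact ((c3.sub continuous_const).continuousOn.mul hck).mul
      (Complex.continuous_conj.comp_continuousOn (hc (e j)))
  have hs := integral_finsetSum (μ := volume.restrict (ball (0 : En n) r)) Finset.univ
    (fun j _ => hint j)
  rw [Finset.sum_eq_zero fun j _ => core hI hr hr1 hb (hL (e j)) (hi (e j)) (e j)] at hs
  have hs2 := congrArg (starRingEnd ℂ) hs
  rw [map_zero, ← integral_conj] at hs2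
  rw [← hs2]
  refine setIntegral_congr_fun measurableSet_ball fun w _ => ?_
  have e0 : w - ((r : ℂ) ^ 2) • b = ∑ j, (w j - (r : ℂ) ^ 2 * b j) • e j := by
    ext i
    simp [he, Pi.single_apply]
  rw [e0, map_sum, map_sum, Finset.sum_mul]
  refine Finset.sum_congr rfl fun j _ => ?_
  simp only [map_smul, smul_eq_mul, map_mul, map_sub, map_pow, conj_hk, he,
    EuclideanSpace.inner_single_right, Complex.conj_conj, Complex.conj_ofReal, map_one]
  ring

/-- the formula on a smaller ball up to the constant -/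
lemma small_ball (hI : IBP n) {r : ℝ} (hr : 0 < r) (hr1 : r < 1) {b : En n} (hb : ‖b‖ < 1)
    {f : En n → ℂ} (hf : DifferentiableOn ℂ f (ball 0 1)) :
    ∫ w in ball (0 : En n) r, (f w - f (((r : ℂ) ^ 2) • b)) * ker b w = 0 := by
  set a : En n := ((r : ℂ) ^ 2) • b with ha
  have har : a ∈ closedBall (0 : En n) r := by
    rw [mem_closedBall_zero_iff, ha, norm_smul, norm_pow, Complex.norm_real, Real.norm_eq_abs,
      abs_of_pos hr]
    have h1 : r * ‖b‖ ≤ 1 := by nlinarith [norm_nonneg b]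
    nlinarith
  have hsub : closedBall (0 : En n) r ⊆ ball 0 1 := closedBall_subset_ball hr1
  set P : ℝ → En n → En n := fun t w => a + (t : ℂ) • (w - a) with hP
  have hPm : ∀ t ∈ Icc (0 : ℝ) 1, ∀ w ∈ closedBall (0 : En n) r, P t w ∈ closedBall (0 : En n) r := by
    intro t ht w hw
    have := (convex_closedBall (0 : En n) r).add_smul_sub_mem har hw ht
    simpa only [hP, Complex.coe_smul] using this
  have hfc : ContinuousOn (fderiv ℂ f) (ball (0 : En n) 1) :=
    (Pool.Agent.Helper853.Bk.contDiffOn_of_differentiableOn isOpen_ball hf)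
      |>.continuousOn_fderiv_of_isOpen isOpen_ball (by simp)
  have hck : ContinuousOn (ker b) (closedBall (0 : En n) r) := by
    have h1 : ContinuousOn (hk b) (closedBall (0 : En n) r) :=
      (continuousOn_hk hb).mono (closedBall_subset_closedBall hr1.le)
    have h2 := Complex.continuous_conj.comp_continuousOn h1
    refine h2.congr fun w _ => ?_
    exact (conj_hk b w).symm
  set Φ : ℝ → En n → ℂ := fun t w => fderiv ℂ f (P t w) (w - a) * ker b w with hΦ
  have hPc : Continuous fun p : ℝ × En n => P p.1 p.2 := by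
    simp only [hP]
    fun_prop
  have hΦc : ContinuousOn (Function.uncurry Φ) (Icc (0 : ℝ) 1 ×ˢ closedBall (0 : En n) r) := by
    have h1 : ContinuousOn (fun p : ℝ × En n => fderiv ℂ f (P p.1 p.2))
        (Icc (0 : ℝ) 1 ×ˢ closedBall (0 : En n) r) :=
      hfc.comp hPc.continuousOn fun p hp => hsub (hPm p.1 hp.1 p.2 hp.2)
    have h2 : ContinuousOn (fun p : ℝ × En n => ker b p.2)
        (Icc (0 : ℝ) 1 ×ˢ closedBall (0 : En n) r) :=
      hck.comp continuous_snd.continuousOn fun p hp => hp.2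
    exact (h1.clm_apply (continuous_snd.sub continuous_const).continuousOn).mul h2
  have hΦi : Integrable (Function.uncurry Φ)
      ((volume.restrict (Ioc (0 : ℝ) 1)).prod (volume.restrict (ball (0 : En n) r))) := by
    rw [Measure.prod_restrict]
    exact (hΦc.integrableOn_compact (isCompact_Icc.prod (isCompact_closedBall _ _))).mono_set
      (prod_mono Ioc_subset_Icc_self ball_subset_closedBall)
  have hswap := integral_integral_swap hΦi
  have hin : ∀ t ∈ Ioc (0 : ℝ) 1, ∫ w in ball (0 : En n) r, Φ t w = 0 := by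
    intro t ht
    have ht' : t ∈ Icc (0 : ℝ) 1 := Ioc_subset_Icc_self ht
    have hm : MapsTo (P t) (closedBall (0 : En n) r) (ball 0 1) := fun w hw => hsub (hPm t ht' w hw)
    refine core_sum hI hr hr1 hb (L := fun w => fderiv ℂ f (P t w)) (fun v => ?_) (fun v => ?_)
    · have h1 := Pool.Agent.Helper853.Bk.differentiableOn_fderiv_apply isOpen_ball hf v
      have h2 : Differentiable ℂ (P t) := by
        simp only [hP]
        fun_prop
      exact h1.comp h2.differentiableOn (hm.mono_left ball_subset_closedBall)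
    · have h2 : Continuous (P t) := by
        simp only [hP]
        fun_prop
      exact (hfc.comp h2.continuousOn hm).clm_apply continuousOn_const
  rw [setIntegral_congr_fun measurableSet_Ioc hin, integral_zero] at hswap
  rw [hswap]
  refine setIntegral_congr_fun measurableSet_ball fun w hw => ?_
  have hw' := ball_subset_closedBall hw
  simp only [hΦ]
  rw [integral_mul_const, ← intervalIntegral.integral_of_le zero_le_one]
  congr 1
  have hd : ∀ t ∈ uIcc (0 : ℝ) 1, HasDerivAt (fun s : ℝ => f (P s w))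
      (fderiv ℂ f (P t w) (w - a)) t := by
    intro t ht
    rw [uIcc_of_le zero_le_one] at ht
    have h1 : HasFDerivAt f (fderiv ℂ f (P t w)) (P t w) :=
      (hf.differentiableAt (isOpen_ball.mem_nhds (hsub (hPm t ht w hw')))).hasFDerivAt
    have h2 : HasDerivAt (fun s : ℂ => a + s • (w - a)) (w - a) (t : ℂ) := by
      simpa using ((hasDerivAt_id (t : ℂ)).smul_const (w - a)).const_add a
    exact (h1.comp_hasDerivAt (t : ℂ) h2).comp_ofReal
  have hci : ContinuousOn (fun t : ℝ => fderiv ℂ f (P t w) (w - a)) (uIcc (0 : ℝ) 1) := by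
    rw [uIcc_of_le zero_le_one]
    have h2 : Continuous fun t : ℝ => P t w := by
      simp only [hP]
      fun_prop
    exact (hfc.comp h2.continuousOn fun t ht => hsub (hPm t ht w hw')).clm_apply continuousOn_const
  rw [intervalIntegral.integral_eq_sub_of_hasDerivAt hd hci.intervalIntegrable]
  simp [hP]

lemma continuousOn_ker {b : En n} (hb : ‖b‖ < 1) : ContinuousOn (ker b) (closedBall 0 1) :=
  (Complex.continuous_conj.comp_continuousOn (continuousOn_hk hb)).congr fun w _ =>
    (conj_hk b w).symm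

lemma int_ker (hI : IBP n) {r : ℝ} (hr : 0 < r) (hr1 : r < 1) {b : En n} (hb : ‖b‖ < 1) :
    ∫ w in ball (0 : En n) r, ker b w = ∫ _ in ball (0 : En n) r, (1 : ℂ) := by
  have hf : DifferentiableOn ℂ (hk b) (ball 0 1) := fun w hw =>
    (hasFDerivAt_hk (one_sub_ne hb (mem_ball_zero_iff.mp hw).le)).differentiableAt
      |>.differentiableWithinAt
  have h := small_ball hI hr hr1 (b := 0) (by simp) hf
  have h2 := congrArg (starRingEnd ℂ) h
  rw [map_zero, ← integral_conj] at h2
  have e : ∀ w : En n, (starRingEnd ℂ) ((hk b w - hk b (((r : ℂ) ^ 2) • (0 : En n))) * ker 0 w) =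
      ker b w - 1 := by
    intro w
    rw [map_mul, map_sub, conj_hk, conj_hk]
    simp [ker]
  simp only [e] at h2
  have i1 : IntegrableOn (ker b) (ball (0 : En n) r) :=
    ((continuousOn_ker hb).integrableOn_compact (isCompact_closedBall _ _)).mono_set
      (ball_subset_closedBall.trans (closedBall_subset_closedBall hr1.le))
  have i2 : IntegrableOn (fun _ => (1 : ℂ)) (ball (0 : En n) r) :=
    (continuousOn_const.integrableOn_compact (isCompact_closedBall (0 : En n) r)).mono_set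
      ball_subset_closedBall
  rw [integral_sub i1 i2] at h2
  exact sub_eq_zero.mp h2

lemma small_ball_eq (hI : IBP n) {r : ℝ} (hr : 0 < r) (hr1 : r < 1) {b : En n} (hb : ‖b‖ < 1)
    {f : En n → ℂ} (hf : DifferentiableOn ℂ f (ball 0 1)) :
    ∫ w in ball (0 : En n) r, f w * ker b w =
      (∫ _ in ball (0 : En n) r, (1 : ℂ)) * f (((r : ℂ) ^ 2) • b) := by
  have h := small_ball hI hr hr1 hb hf
  have hck : ContinuousOn (ker b) (closedBall (0 : En n) r) :=
    (continuousOn_ker hb).mono (closedBall_subset_closedBall hr1.le)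
  have i1 : IntegrableOn (fun w => f w * ker b w) (ball (0 : En n) r) :=
    (((hf.continuousOn.mono (closedBall_subset_ball hr1)).mul hck).integrableOn_compact
      (isCompact_closedBall _ _)).mono_set ball_subset_closedBall
  have i2 : IntegrableOn (fun w => f (((r : ℂ) ^ 2) • b) * ker b w) (ball (0 : En n) r) :=
    ((continuousOn_const.mul hck).integrableOn_compact
      (isCompact_closedBall _ _)).mono_set ball_subset_closedBall
  simp only [sub_mul] at h
  rw [integral_sub i1 i2, integral_const_mul, int_ker hI hr hr1 hb] at h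
  rw [sub_eq_zero.mp h, mul_comm]

end ReproAux

open ReproAux in
theorem repro {n : ℕ} (hI : IBP n) : Repro n := by
  intro f hf hi a ha
  have ha1 : ‖a‖ < 1 := mem_ball_zero_iff.mp ha
  set r : ℕ → ℝ := fun k => 1 - 1 / ((k : ℝ) + 1 + 1) with hr
  have hr0 : ∀ k, 0 < r k := by
    intro k
    have h1 : (0 : ℝ) ≤ k := Nat.cast_nonneg k
    have h2 : 1 / ((k : ℝ) + 1 + 1) < 1 := by
      rw [div_lt_one (by linarith)]
      linarith
    simp only [hr]
    linarith
  have hr1 : ∀ k, r k < 1 := by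
    intro k
    have h2 : 0 < 1 / ((k : ℝ) + 1 + 1) := by positivity
    simp only [hr]
    linarith
  have hrm : Monotone r := by
    intro k l hkl
    have h1 : (k : ℝ) ≤ l := Nat.cast_le.mpr hkl
    have h2 : 1 / ((l : ℝ) + 1 + 1) ≤ 1 / ((k : ℝ) + 1 + 1) :=
      one_div_le_one_div_of_le (by positivity) (by linarith)
    simp only [hr]
    linarith
  have hrt : Tendsto r atTop (𝓝 1) := by
    have h1 : Tendsto (fun k : ℕ => 1 / ((k : ℝ) + 1 + 1)) atTop (𝓝 0) := by
      have h2 := (tendsto_one_div_add_atTop_nhds_zero_nat (𝕜 := ℝ)).comp (tendsto_add_atTop_nat 1)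
      refine h2.congr fun k => ?_
      simp
    have h3 := h1.const_sub 1
    rw [sub_zero] at h3
    exact h3
  have hU : ⋃ k, ball (0 : En n) (r k) = ball 0 1 := by
    ext w
    simp only [mem_iUnion, mem_ball_zero_iff]
    constructor
    · rintro ⟨k, hk⟩
      exact hk.trans (hr1 k)
    · intro hw
      exact (hrt.eventually (lt_mem_nhds hw)).exists
  have hmono : Monotone fun k => ball (0 : En n) (r k) := fun k l hkl => ball_subset_ball (hrm hkl)
  have i1 : IntegrableOn (fun w => f w * ker a w) (ball (0 : En n) 1) :=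
    IntegrableOn.mul_continuousOn_of_subset hi (continuousOn_ker ha1) measurableSet_ball
      (isCompact_closedBall (0 : En n) 1) ball_subset_closedBall
  have i2 : IntegrableOn (fun _ => (1 : ℂ)) (ball (0 : En n) 1) :=
    (continuousOn_const.integrableOn_compact (isCompact_closedBall (0 : En n) 1)).mono_set
      ball_subset_closedBall
  have t1 := tendsto_setIntegral_of_monotone (fun k => measurableSet_ball) hmono (hU ▸ i1)
  have t2 := tendsto_setIntegral_of_monotone (fun k => measurableSet_ball) hmono (hU ▸ i2)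
  rw [hU] at t1 t2
  have t3 : Tendsto (fun k => f ((((r k : ℝ) : ℂ) ^ 2) • a)) atTop (𝓝 (f a)) := by
    have h1 : ContinuousAt f a := (hf.differentiableAt (isOpen_ball.mem_nhds ha)).continuousAt
    have h2 : Continuous fun s : ℝ => ((s : ℂ) ^ 2) • a := by fun_prop
    have h3 := (h2.tendsto 1).comp hrt
    simp only [Complex.ofReal_one, one_pow, one_smul] at h3
    exact h1.tendsto.comp h3
  have t4 := t2.mul t3
  simp only [small_ball_eq hI (hr0 _) (hr1 _) ha1 hf] at t1
  have e := tendsto_nhds_unique t1 t4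
  unfold bT
  rw [e]
  simp [Measure.real]

end Pool.Agent.H809Z.Ball
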